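import Mathlib

set_option autoImplicit false

namespace Pool.Agent.Work.MP_17669a_mp

open Matrix

variable {R S : Type*} [CommRing R] [CommRing S]

/-- Transfer matrix with hopping parameter `t`. -/
def tmat (t a : R) : Matrix (Fin 2) (Fin 2) R := !![a, -t; t, 0]

/-- Product of the transfer matrices along a list. -/
def tprod (t : R) (l : List R) : Matrix (Fin 2) (Fin 2) R := (l.map (tmat t)).prod

/-- Trace of the monodromy matrix. -/
def disc (t : R) (l : List R) : R := (tprod t l).trace

@[simp] lemma tprod_nil (t : R) : tprod t ([] : List R) = 1 := rfl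

@[simp] lemma tprod_cons (t a : R) (l : List R) : tprod t (a :: l) = tmat t a * tprod t l := by
  simp [tprod]

lemma tprod_append (t : R) (l l' : List R) : tprod t (l ++ l') = tprod t l * tprod t l' := by
  simp [tprod]

lemma tmat_map (f : R →+* S) (t a : R) : (tmat t a).map f = tmat (f t) (f a) := by
  ext i j; fin_cases i <;> fin_cases j <;> simp [tmat]

lemma tprod_map (f : R →+* S) (t : R) (l : List R) :
    (tprod t l).map f = tprod (f t) (l.map f) := by
  induction l with
  | nil => simp [Matrix.map_one]
  | cons a l ih =>
    simp only [tprod_cons, List.map_cons, ← ih, ← tmat_map]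
    rw [Matrix.map_mul]

lemma disc_map (f : R →+* S) (t : R) (l : List R) : f (disc t l) = disc (f t) (l.map f) := by
  unfold disc
  rw [← tprod_map]
  simp [Matrix.trace]

lemma tmat_smul (c t a : R) : tmat (c * t) (c * a) = c • tmat t a := by
  ext i j; fin_cases i <;> fin_cases j <;> simp [tmat]

lemma tprod_smul (c t : R) (l : List R) :
    tprod (c * t) (l.map (fun a => c * a)) = c ^ l.length • tprod t l := by
  induction l with
  | nil => simp
  | cons a l ih =>
    simp only [tprod_cons, List.map_cons, ih, tmat_smul, List.length_cons]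
    rw [Matrix.smul_mul, Matrix.mul_smul, smul_smul, pow_succ']

lemma disc_smul (c t : R) (l : List R) :
    disc (c * t) (l.map (fun a => c * a)) = c ^ l.length * disc t l := by
  unfold disc
  rw [tprod_smul, Matrix.trace_smul, smul_eq_mul]

lemma tprod_zero (a : R) (l : List R) :
    tprod 0 (a :: l) = !![(a :: l).prod, 0; 0, 0] := by
  induction l generalizing a with
  | nil => ext i j; fin_cases i <;> fin_cases j <;> simp [tmat]
  | cons b l ih =>
    rw [tprod_cons, ih]
    ext i j; fin_cases i <;> fin_cases j <;> simp [tmat]

lemma disc_zero (l : List R) (hl : l ≠ []) : disc 0 l = l.prod := by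
  cases l with
  | nil => exact absurd rfl hl
  | cons a l =>
    unfold disc
    rw [tprod_zero]
    simp [Matrix.trace]

/-- the sign matrix -/
def sg : Matrix (Fin 2) (Fin 2) R := !![1, 0; 0, -1]

lemma sg_mul_sg : (sg : Matrix (Fin 2) (Fin 2) R) * sg = 1 := by
  ext i j; fin_cases i <;> fin_cases j <;> simp [sg]

lemma tmat_transpose (t a : R) : (tmat t a)ᵀ = sg * tmat t a * sg := by
  ext i j; fin_cases i <;> fin_cases j <;> simp [sg, tmat]

lemma tmat_neg (t a : R) : tmat t (-a) = -(sg * tmat t a * sg) := by
  ext i j; fin_cases i <;> fin_cases j <;> simp [sg, tmat]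

lemma tprod_transpose (t : R) (l : List R) : (tprod t l)ᵀ = sg * tprod t l.reverse * sg := by
  induction l with
  | nil => simp [sg_mul_sg]
  | cons a l ih =>
    rw [tprod_cons, Matrix.transpose_mul, ih, tmat_transpose, List.reverse_cons, tprod_append]
    simp only [tprod_cons, tprod_nil, mul_one]
    calc sg * tprod t l.reverse * sg * (sg * tmat t a * sg)
        = sg * tprod t l.reverse * (sg * sg) * tmat t a * sg := by simp only [mul_assoc]
      _ = _ := by rw [sg_mul_sg]; simp only [mul_assoc, one_mul]

lemma disc_reverse (t : R) (l : List R) : disc t l.reverse = disc t l := by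
  unfold disc
  rw [← Matrix.trace_transpose (tprod t l), tprod_transpose, Matrix.trace_mul_cycle, sg_mul_sg,
    one_mul]

lemma tprod_neg (t : R) (l : List R) :
    tprod t (l.map (fun a => -a)) = (-1 : R) ^ l.length • (sg * tprod t l * sg) := by
  induction l with
  | nil => simp [sg_mul_sg]
  | cons a l ih =>
    simp only [tprod_cons, List.map_cons, ih, tmat_neg, List.length_cons]
    rw [Matrix.mul_smul, pow_succ, mul_smul, neg_smul, one_smul]
    congr 1
    rw [neg_mul]
    congr 1
    calc sg * tmat t a * sg * (sg * tprod t l * sg)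
        = sg * tmat t a * (sg * sg) * tprod t l * sg := by simp only [mul_assoc]
      _ = _ := by rw [sg_mul_sg]; simp only [mul_assoc, one_mul, mul_one]

lemma disc_neg (t : R) (l : List R) :
    disc t (l.map (fun a => -a)) = (-1 : R) ^ l.length * disc t l := by
  unfold disc
  rw [tprod_neg, Matrix.trace_smul, Matrix.trace_mul_cycle, sg_mul_sg, one_mul, smul_eq_mul]

end Pool.Agent.Work.MP_17669a_mp
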