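import Mathlib
import Pool.Agent.Work.MP_17669a_mp.Disc

set_option autoImplicit false

namespace Pool.Agent.Work.MP_17669a_mp

open Matrix

variable {R : Type*} [CommRing R]

/-- the eigenvector matrix -/
def Smat (x x' : R) : Matrix (Fin 2) (Fin 2) R := !![x, x'; 1, 1]
/-- its adjugate -/
def Sadj (x x' : R) : Matrix (Fin 2) (Fin 2) R := !![1, -x'; -1, x]
/-- powers of the diagonal matrix -/
def Lam (x x' : R) (n : ℕ) : Matrix (Fin 2) (Fin 2) R := !![x ^ n, 0; 0, x' ^ n]
/-- conjugated rank one matrices -/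
def Gmat (x x' : R) (n : ℕ) : Matrix (Fin 2) (Fin 2) R := !![1, x ^ (2 * n); -x' ^ (2 * n), -1]

lemma step_S (x x' s w : R) (hx : x * x' = 1) (hs : s * (x - x') = 1) :
    tmat 1 (x + x' - w) * Smat x x' = Smat x x' * ((1 - (s * w) • Gmat x x' 0) * Lam x x' 1) := by
  ext i j; fin_cases i <;> fin_cases j <;> simp [tmat, Smat, Gmat, Lam, Matrix.mul_apply, Fin.sum_univ_two]
  · linear_combination hx + w * x * hs
  · linear_combination hx + w * x' * hs
  · ring
  · ring

lemma lam_G (x x' : R) (hx : x * x' = 1) (n : ℕ) :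
    Lam x x' n * Gmat x x' 0 = Gmat x x' n * Lam x x' n := by
  have h : x ^ n * x' ^ n = 1 := by rw [← mul_pow, hx, one_pow]
  ext i j; fin_cases i <;> fin_cases j <;> simp [Gmat, Lam, Matrix.mul_apply, Fin.sum_univ_two, two_mul, pow_add]
  · linear_combination (-x ^ n) * h
  · linear_combination (-x' ^ n) * h

lemma lam_succ (x x' : R) (n : ℕ) : Lam x x' n * Lam x x' 1 = Lam x x' (n + 1) := by
  ext i j; fin_cases i <;> fin_cases j <;> simp [Lam, Matrix.mul_apply, Fin.sum_univ_two, pow_succ]

/-- first-order sum -/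
def S1 (x x' : R) (n : ℕ) (v : Fin n → R) : Matrix (Fin 2) (Fin 2) R :=
  !![∑ j, v j, ∑ j, v j * x ^ (2 * (j : ℕ)); -∑ j, v j * x' ^ (2 * (j : ℕ)), -∑ j, v j]

/-- main expansion -/
lemma expansion (x x' s p : R) (hx : x * x' = 1) (hs : s * (x - x') = 1) (n : ℕ) (v : Fin n → R) :
    ∃ Q C : Matrix (Fin 2) (Fin 2) R,
      tprod 1 (List.ofFn fun j => x + x' - p * v j) * Smat x x' =
        Smat x x' * ((1 - (s * p) • S1 x x' n v + (s * p) ^ 2 • Q + (s * p) ^ 3 • C) * Lam x x' n) ∧
      Q.trace = (∑ j, v j) ^ 2 -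
        (∑ j, v j * x ^ (2 * (j : ℕ))) * (∑ j, v j * x' ^ (2 * (j : ℕ))) := by
  induction n with
  | zero =>
    refine ⟨0, 0, ?_, ?_⟩
    · simp only [List.ofFn_zero, tprod_nil, one_mul]
      ext i j; fin_cases i <;> fin_cases j <;> simp [Smat, Lam, S1, Matrix.mul_apply, Fin.sum_univ_two]
    · simp
  | succ n ih =>
    obtain ⟨Q, C, h1, h2⟩ := ih (fun j => v j.castSucc)
    set S0 := S1 x x' n (fun j => v j.castSucc) with hS0
    set G := Gmat x x' n with hG
    set b := v (Fin.last n) with hb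
    have hS : S1 x x' (n + 1) v = S0 + b • G := by
      ext i j; fin_cases i <;> fin_cases j <;>
        simp [S1, hS0, hG, Gmat, Fin.sum_univ_castSucc, hb] <;> ring
    refine ⟨Q + b • (S0 * G), C - b • (Q * G) - (s * p) • (b • (C * G)), ?_, ?_⟩
    · rw [List.ofFn_succ', List.concat_eq_append, tprod_append]
      simp only [tprod_cons, tprod_nil, mul_one]
      rw [Matrix.mul_assoc, step_S x x' s (p * b) hx hs, ← Matrix.mul_assoc, h1]
      have e1 : Lam x x' n * (1 - (s * (p * b)) • Gmat x x' 0) =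
          (1 - (s * p * b) • G) * Lam x x' n := by
        rw [Matrix.mul_sub, Matrix.sub_mul, Matrix.mul_one, Matrix.one_mul, Matrix.mul_smul,
          lam_G x x' hx, Matrix.smul_mul, hG, mul_assoc s p b]
      calc Smat x x' * ((1 - (s * p) • S0 + (s * p) ^ 2 • Q + (s * p) ^ 3 • C) * Lam x x' n) *
            ((1 - (s * (p * b)) • Gmat x x' 0) * Lam x x' 1)
          = Smat x x' * ((1 - (s * p) • S0 + (s * p) ^ 2 • Q + (s * p) ^ 3 • C) *
            (Lam x x' n * (1 - (s * (p * b)) • Gmat x x' 0)) * Lam x x' 1) := by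
              simp only [Matrix.mul_assoc]
        _ = Smat x x' * (((1 - (s * p) • S0 + (s * p) ^ 2 • Q + (s * p) ^ 3 • C) *
            (1 - (s * p * b) • G)) * (Lam x x' n * Lam x x' 1)) := by
              rw [e1]; simp only [Matrix.mul_assoc]
        _ = _ := by
              rw [lam_succ, hS]
              congr 2
              generalize s * p = r
              simp only [Matrix.mul_sub, Matrix.add_mul, Matrix.sub_mul, Matrix.mul_one,
                Matrix.one_mul, Matrix.mul_smul, Matrix.smul_mul, smul_sub, smul_add, smul_smul]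
              ext i j
              simp only [Matrix.sub_apply, Matrix.add_apply, Matrix.smul_apply, smul_eq_mul]
              ring
    · rw [Matrix.trace_add, h2, Matrix.trace_smul]
      have e2 : (S0 * G).trace = 2 * (∑ j : Fin n, v j.castSucc)
          - (∑ j : Fin n, v j.castSucc * x ^ (2 * (j : ℕ))) * x' ^ (2 * n)
          - (∑ j : Fin n, v j.castSucc * x' ^ (2 * (j : ℕ))) * x ^ (2 * n) := by
        simp [hS0, hG, S1, Gmat, Matrix.trace, Fin.sum_univ_two]
        ring
      rw [e2, Fin.sum_univ_castSucc, Fin.sum_univ_castSucc, Fin.sum_univ_castSucc]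
      simp only [Fin.val_castSucc, Fin.val_last, smul_eq_mul, ← hb]
      have h : x ^ (2 * n) * x' ^ (2 * n) = 1 := by rw [← mul_pow, hx, one_pow]
      linear_combination (b ^ 2) * h

/-- the trace expansion at a point where the free monodromy is `± 1`. -/
lemma disc_expansion (x x' s p e : R) (hx : x * x' = 1) (hs : s * (x - x') = 1) (n : ℕ)
    (he : x ^ n = e) (he' : x' ^ n = e) (v : Fin n → R) :
    ∃ c : R, disc 1 (List.ofFn fun j => x + x' - p * v j) =
      e * (2 + (s * p) ^ 2 * ((∑ j, v j) ^ 2 -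
        (∑ j, v j * x ^ (2 * (j : ℕ))) * (∑ j, v j * x' ^ (2 * (j : ℕ)))) + (s * p) ^ 3 * c) := by
  obtain ⟨Q, C, h1, h2⟩ := expansion x x' s p hx hs n v
  refine ⟨C.trace, ?_⟩
  have hadj : Smat x x' * (s • Sadj x x') = 1 := by
    ext i j; fin_cases i <;> fin_cases j <;>
      simp [Smat, Sadj, Matrix.mul_apply, Fin.sum_univ_two] <;>
      first | linear_combination hs | ring1
  have hadj' : (s • Sadj x x') * Smat x x' = 1 := by
    ext i j; fin_cases i <;> fin_cases j <;>
      simp [Smat, Sadj, Matrix.mul_apply, Fin.sum_univ_two] <;>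
      first | linear_combination hs | ring1
  have hL : Lam x x' n = e • (1 : Matrix (Fin 2) (Fin 2) R) := by
    ext i j; fin_cases i <;> fin_cases j <;> simp [Lam, he, he']
  have h3 : tprod 1 (List.ofFn fun j => x + x' - p * v j) =
      Smat x x' * ((1 - (s * p) • S1 x x' n v + (s * p) ^ 2 • Q + (s * p) ^ 3 • C) * Lam x x' n)
        * (s • Sadj x x') := by
    rw [← h1, Matrix.mul_assoc, hadj, Matrix.mul_one]
  unfold disc
  rw [h3, Matrix.trace_mul_cycle, hadj', Matrix.one_mul, hL, Matrix.mul_smul, Matrix.mul_one,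
    Matrix.trace_smul, Matrix.trace_add, Matrix.trace_add, Matrix.trace_sub, Matrix.trace_smul,
    Matrix.trace_smul, Matrix.trace_smul, h2]
  have h4 : (S1 x x' n v).trace = 0 := by
    simp [S1, Matrix.trace]
  rw [h4]
  simp [Matrix.trace_one]

end Pool.Agent.Work.MP_17669a_mp
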