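import Mathlib
import Pool.Agent.Work.MP_17669a_mp.Disc

set_option autoImplicit false

namespace Pool.Agent.Work.MP_17669a_mp

open Matrix

variable {R : Type*} [CommRing R]

/-- tridiagonal matrix -/
def tri (n : ℕ) (a : Fin n → R) : Matrix (Fin n) (Fin n) R :=
  Matrix.of fun i j => if i = j then a i else if (i : ℕ) + 1 = j ∨ (j : ℕ) + 1 = i then -1 else 0

lemma tri_apply (n : ℕ) (a : Fin n → R) (i j : Fin n) : tri n a i j =
    if i = j then a i else if (i : ℕ) + 1 = j ∨ (j : ℕ) + 1 = i then -1 else 0 := rfl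

lemma det_tri_succ_succ (n : ℕ) (a : Fin (n + 2) → R) :
    (tri (n + 2) a).det = a 0 * (tri (n + 1) (fun i => a i.succ)).det
      - (tri n (fun i => a i.succ.succ)).det := by
  rw [Matrix.det_succ_row_zero, Fin.sum_univ_succ, Fin.sum_univ_succ]
  have h0 : ∀ j : Fin n, tri (n + 2) a 0 j.succ.succ = 0 := by
    intro j
    rw [tri_apply]
    have h1 : (0 : Fin (n + 2)) ≠ j.succ.succ := by
      intro h; have := congrArg Fin.val h; simp at this
    rw [if_neg h1, if_neg]
    simp
  have h1 : tri (n + 2) a 0 (Fin.succ 0) = -1 := by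
    rw [tri_apply, if_neg (by intro h; have := congrArg Fin.val h; simp at this), if_pos]
    simp
  have h2 : tri (n + 2) a 0 0 = a 0 := by rw [tri_apply, if_pos rfl]
  have h3 : (tri (n + 2) a).submatrix Fin.succ (Fin.succAbove 0) = tri (n + 1) (fun i => a i.succ) := by
    ext i j
    simp [tri_apply]
  have h4 : ((tri (n + 2) a).submatrix Fin.succ (Fin.succAbove (Fin.succ 0))).det =
      -(tri n (fun i => a i.succ.succ)).det := by
    rw [Matrix.det_succ_column_zero, Fin.sum_univ_succ]
    have h5 : ∀ i : Fin n, (tri (n + 2) a).submatrix Fin.succ (Fin.succAbove (Fin.succ 0)) i.succ 0 = 0 := by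
      intro i
      rw [Matrix.submatrix_apply]
      simp [tri_apply, Fin.ext_iff]
    have h6 : (tri (n + 2) a).submatrix Fin.succ (Fin.succAbove (Fin.succ 0)) 0 0 = -1 := by
      simp [tri_apply, Fin.ext_iff]
    have h7 : ((tri (n + 2) a).submatrix Fin.succ (Fin.succAbove (Fin.succ 0))).submatrix
        (Fin.succAbove 0) Fin.succ = tri n (fun i => a i.succ.succ) := by
      ext i j
      simp [tri_apply]
    rw [h6, h7, Finset.sum_eq_zero (fun i _ => by rw [h5 i]; simp)]
    simp
  rw [h1, h2, h3, h4]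
  simp [h0]
  ring

lemma tprod_cons_00 (a : R) (l : List R) :
    tprod 1 (a :: l) 0 0 = a * tprod 1 l 0 0 - tprod 1 l 1 0 := by
  rw [tprod_cons, Matrix.mul_apply, Fin.sum_univ_two]; simp [tmat]; ring

lemma tprod_cons_01 (a : R) (l : List R) :
    tprod 1 (a :: l) 0 1 = a * tprod 1 l 0 1 - tprod 1 l 1 1 := by
  rw [tprod_cons, Matrix.mul_apply, Fin.sum_univ_two]; simp [tmat]; ring

lemma tprod_cons_10 (a : R) (l : List R) : tprod 1 (a :: l) 1 0 = tprod 1 l 0 0 := by
  rw [tprod_cons, Matrix.mul_apply, Fin.sum_univ_two]; simp [tmat]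

lemma tprod_cons_11 (a : R) (l : List R) : tprod 1 (a :: l) 1 1 = tprod 1 l 0 1 := by
  rw [tprod_cons, Matrix.mul_apply, Fin.sum_univ_two]; simp [tmat]

lemma tprod_concat_01 (a : R) (l : List R) : tprod 1 (l ++ [a]) 0 1 = - tprod 1 l 0 0 := by
  rw [tprod_append, Matrix.mul_apply, Fin.sum_univ_two]; simp [tmat]

/-- the continuant is the upper left entry of the monodromy matrix. -/
lemma det_tri (n : ℕ) (a : Fin n → R) : (tri n a).det = tprod 1 (List.ofFn a) 0 0 := by
  induction n using Nat.strong_induction_on with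
  | _ n ih =>
    match n, a, ih with
    | 0, a, _ => simp
    | 1, a, _ => simp [tri_apply, tmat, List.ofFn_succ]
    | n + 2, a, ih =>
      have e : List.ofFn a = a 0 :: a 1 :: List.ofFn (fun i : Fin n => a i.succ.succ) := by
        rw [List.ofFn_succ, List.ofFn_succ]; rfl
      have e' : List.ofFn (fun i : Fin (n + 1) => a i.succ) =
          a 1 :: List.ofFn (fun i : Fin n => a i.succ.succ) := by
        rw [List.ofFn_succ]; rfl
      rw [det_tri_succ_succ, ih (n + 1) (by omega), ih n (by omega), e, e', tprod_cons_00 (a 0),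
        tprod_cons_10]

/-- periodic Jacobi matrix -/
def cyc (n : ℕ) (a : Fin (n + 3) → R) (z z' : R) : Matrix (Fin (n + 3)) (Fin (n + 3)) R :=
  Matrix.of fun i j => if i = j then a i else if (i : ℕ) + 1 = j ∨ (j : ℕ) + 1 = i then -1
    else if (i : ℕ) = 0 ∧ (j : ℕ) = n + 2 then -z'
    else if (i : ℕ) = n + 2 ∧ (j : ℕ) = 0 then -z else 0

lemma cyc_apply (n : ℕ) (a : Fin (n + 3) → R) (z z' : R) (i j : Fin (n + 3)) :
    cyc n a z z' i j = if i = j then a i else if (i : ℕ) + 1 = j ∨ (j : ℕ) + 1 = i then -1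
    else if (i : ℕ) = 0 ∧ (j : ℕ) = n + 2 then -z'
    else if (i : ℕ) = n + 2 ∧ (j : ℕ) = 0 then -z else 0 := rfl

lemma cyc_eq (n : ℕ) (a : Fin (n + 3) → R) (z z' : R) :
    cyc n a z z' = updateRow (updateRow (tri (n + 3) a) 0
      (tri (n + 3) a 0 + (-z') • (Pi.single (Fin.last (n + 2)) (1 : R))))
      (Fin.last (n + 2))
      (tri (n + 3) a (Fin.last (n + 2)) + (-z) • (Pi.single 0 (1 : R))) := by
  ext i j
  rw [cyc_apply]
  by_cases hi : i = Fin.last (n + 2)
  · subst hi
    rw [updateRow_self, Pi.add_apply, Pi.smul_apply, tri_apply]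
    by_cases hj : j = 0
    · subst hj
      simp [Fin.ext_iff]
    · have hj' : (j : ℕ) ≠ 0 := fun h => hj (Fin.ext h)
      simp [hj, hj']
  · rw [updateRow_ne hi]
    have hi' : (i : ℕ) ≠ n + 2 := fun h => hi (Fin.ext h)
    by_cases h0 : i = 0
    · subst h0
      rw [updateRow_self, Pi.add_apply, Pi.smul_apply, tri_apply]
      by_cases hj : j = Fin.last (n + 2)
      · subst hj
        simp [Fin.ext_iff]
      · have hj' : (j : ℕ) ≠ n + 2 := fun h => hj (Fin.ext h)
        simp [hj, hj']
    · rw [updateRow_ne h0, tri_apply]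
      have h0' : (i : ℕ) ≠ 0 := fun h => h0 (Fin.ext h)
      simp [hi', h0']

lemma det_D1 (n : ℕ) (a : Fin (n + 2) → R) :
    (updateRow (tri (n + 2) a) 0 (Pi.single (Fin.last (n + 1)) (1 : R))).det = 1 := by
  rw [Matrix.det_succ_row_zero, Finset.sum_eq_single (Fin.last (n + 1))]
  · have h : ((updateRow (tri (n + 2) a) 0 (Pi.single (Fin.last (n + 1)) (1 : R))).submatrix
        Fin.succ (Fin.succAbove (Fin.last (n + 1)))).det = (-1) ^ (n + 1) := by
      rw [Matrix.det_of_isUpperTriangular]
      · rw [Finset.prod_congr rfl (g := fun _ => (-1 : R))]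
        · simp
        · intro i _
          rw [Matrix.submatrix_apply, updateRow_ne (Fin.succ_ne_zero i), Fin.succAbove_last,
            tri_apply]
          simp [Fin.ext_iff]
      · intro i j hij
        have hij' : (j : ℕ) < (i : ℕ) := hij
        rw [Matrix.submatrix_apply, updateRow_ne (Fin.succ_ne_zero i), Fin.succAbove_last,
          tri_apply, if_neg, if_neg]
        · simp only [Fin.val_succ, Fin.val_castSucc]; omega
        · simp only [Fin.ext_iff, Fin.val_succ, Fin.val_castSucc]; omega
    rw [h]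
    simp [← pow_add, ← two_mul]
  · intro j _ hj
    rw [updateRow_self, Pi.single_eq_of_ne hj]
    simp
  · simp

lemma det_D2 (n : ℕ) (a : Fin (n + 2) → R) :
    (updateRow (tri (n + 2) a) (Fin.last (n + 1)) (Pi.single 0 (1 : R))).det = 1 := by
  rw [Matrix.det_succ_row _ (Fin.last (n + 1)), Finset.sum_eq_single 0]
  · have h : ((updateRow (tri (n + 2) a) (Fin.last (n + 1)) (Pi.single 0 (1 : R))).submatrix
        (Fin.succAbove (Fin.last (n + 1))) (Fin.succAbove 0)).det = (-1) ^ (n + 1) := by
      rw [Matrix.det_of_isLowerTriangular]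
      · rw [Finset.prod_congr rfl (g := fun _ => (-1 : R))]
        · simp
        · intro i _
          rw [Matrix.submatrix_apply, Fin.succAbove_last, updateRow_ne (Fin.castSucc_lt_last i).ne,
            tri_apply]
          simp [Fin.ext_iff]
      · intro i j hij
        have hij' : (i : ℕ) < (j : ℕ) := hij
        rw [Matrix.submatrix_apply, Fin.succAbove_last, updateRow_ne (Fin.castSucc_lt_last i).ne,
          tri_apply, if_neg, if_neg]
        · simp only [Fin.val_succ, Fin.val_castSucc, Fin.succAbove_zero]; omega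
        · simp only [Fin.ext_iff, Fin.val_succ, Fin.val_castSucc, Fin.succAbove_zero]; omega
    rw [h]
    simp [← pow_add, ← two_mul]
  · intro j _ hj
    rw [updateRow_self, Pi.single_eq_of_ne hj]
    simp
  · simp

lemma det_D3 (n : ℕ) (a : Fin (n + 3) → R) :
    (updateRow (updateRow (tri (n + 3) a) 0 (Pi.single (Fin.last (n + 2)) (1 : R)))
      (Fin.last (n + 2)) (Pi.single 0 (1 : R))).det
      = -(tri (n + 1) (fun i => a i.succ.castSucc)).det := by
  rw [Matrix.det_succ_row_zero, Finset.sum_eq_single (Fin.last (n + 2))]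
  · rw [Matrix.det_succ_row _ (Fin.last (n + 1)), Finset.sum_eq_single 0]
    · have h : (((updateRow (updateRow (tri (n + 3) a) 0 (Pi.single (Fin.last (n + 2)) (1 : R)))
        (Fin.last (n + 2)) (Pi.single 0 (1 : R))).submatrix Fin.succ
          (Fin.succAbove (Fin.last (n + 2)))).submatrix (Fin.succAbove (Fin.last (n + 1)))
          (Fin.succAbove 0)) = tri (n + 1) (fun i => a i.succ.castSucc) := by
        ext i j
        rw [Matrix.submatrix_apply, Matrix.submatrix_apply, Fin.succAbove_last, Fin.succAbove_last,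
          updateRow_ne, updateRow_ne (Fin.succ_ne_zero _), tri_apply, tri_apply]
        · simp [Fin.ext_iff]
        · rw [Ne, Fin.ext_iff]
          simp only [Fin.val_succ, Fin.val_castSucc, Fin.val_last]
          omega
      rw [h]
      have h1 : updateRow (updateRow (tri (n + 3) a) 0 (Pi.single (Fin.last (n + 2)) (1 : R)))
        (Fin.last (n + 2)) (Pi.single 0 (1 : R)) 0 (Fin.last (n + 2)) = 1 := by
        rw [updateRow_ne (by rw [Ne, Fin.ext_iff]; simp), updateRow_self, Pi.single_eq_same]
      rw [h1, Matrix.submatrix_apply, Fin.succAbove_last, Fin.succ_last, updateRow_self]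
      have h2 : (-1 : R) ^ (n * 2) = 1 := by rw [mul_comm, pow_mul, neg_one_sq, one_pow]
      simp
      ring_nf
      rw [h2, mul_one]
    · intro j _ hj
      rw [Matrix.submatrix_apply, Fin.succAbove_last, Fin.succ_last, updateRow_self,
        Pi.single_eq_of_ne]
      · simp
      · intro h
        apply hj
        apply Fin.ext
        have := congrArg Fin.val h
        simpa using this
    · intro h; exact absurd (Finset.mem_univ _) h
  · intro j _ hj
    have hne : (0 : Fin (n + 3)) ≠ Fin.last (n + 2) := by simp [Fin.ext_iff]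
    rw [updateRow_ne hne, updateRow_self, Pi.single_eq_of_ne hj, mul_zero, zero_mul]
  · intro h; exact absurd (Finset.mem_univ _) h

lemma det_cyc (n : ℕ) (a : Fin (n + 3) → R) (z z' : R) (hz : z * z' = 1) :
    (cyc n a z z').det = disc 1 (List.ofFn a) - z - z' := by
  have hne : (0 : Fin (n + 3)) ≠ Fin.last (n + 2) := by simp [Fin.ext_iff]
  rw [cyc_eq, Matrix.det_updateRow_add, Matrix.det_updateRow_smul]
  have e1 : updateRow (updateRow (tri (n + 3) a) 0
      (tri (n + 3) a 0 + (-z') • (Pi.single (Fin.last (n + 2)) (1 : R)))) (Fin.last (n + 2))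
      (tri (n + 3) a (Fin.last (n + 2))) = updateRow (tri (n + 3) a) 0
      (tri (n + 3) a 0 + (-z') • (Pi.single (Fin.last (n + 2)) (1 : R))) := by
    ext i j
    by_cases hi : i = Fin.last (n + 2)
    · subst hi
      rw [updateRow_self, updateRow_ne hne.symm]
    · rw [updateRow_ne hi]
  have hD1 := det_D1 (n + 1) a
  have hD2 := det_D2 (n + 1) a
  have hD3 := det_D3 n a
  rw [e1, Matrix.det_updateRow_add, Matrix.det_updateRow_smul, Matrix.updateRow_eq_self, hD1,
    Matrix.updateRow_comm _ hne, Matrix.det_updateRow_add, Matrix.det_updateRow_smul,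
    Matrix.updateRow_comm _ hne.symm, Matrix.updateRow_comm _ hne.symm, Matrix.updateRow_eq_self,
    hD2, hD3]
  have e2 : List.ofFn a = a 0 :: (List.ofFn (fun i : Fin (n + 1) => a i.succ.castSucc) ++
      [a (Fin.last (n + 2))]) := by
    rw [List.ofFn_succ, List.ofFn_succ', List.concat_eq_append]
    rfl
  have e3 : disc 1 (List.ofFn a) = (tri (n + 3) a).det -
      (tri (n + 1) (fun i => a i.succ.castSucc)).det := by
    rw [det_tri, det_tri]
    unfold disc
    rw [Matrix.trace_fin_two, e2, tprod_cons_11, tprod_concat_01]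
    ring
  rw [e3]
  linear_combination (-(tri (n + 1) fun i => a i.succ.castSucc).det) * hz

end Pool.Agent.Work.MP_17669a_mp
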