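import Mathlib
import Pool.Agent.Work.MP_17669a_mp.Second
import Pool.Agent.Work.MP_17669a_mp.Tri

set_option autoImplicit false

namespace Pool.Agent.Work.MP_17669a_mp

open Matrix Polynomial

/-- discriminant polynomial -/
noncomputable def dpoly {R : Type*} [CommRing R] {q : ℕ} (t : R) (V : Fin q → R) : R[X] :=
  disc (C t) (List.ofFn fun j => X - C (V j))

section
variable {R S : Type*} [CommRing R] [CommRing S] {q : ℕ}

lemma dpoly_map (f : R →+* S) (t : R) (V : Fin q → R) :
    (dpoly t V).map f = dpoly (f t) (fun j => f (V j)) := by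
  unfold dpoly
  have h := disc_map (Polynomial.mapRingHom f) (C t) (List.ofFn fun j => X - C (V j))
  rw [Polynomial.coe_mapRingHom] at h
  rw [h, List.map_ofFn, Polynomial.map_C]
  congr 2
  funext j
  simp

lemma dpoly_eval (t : R) (V : Fin q → R) (x : R) :
    (dpoly t V).eval x = disc t (List.ofFn fun j => x - V j) := by
  unfold dpoly
  have h := disc_map (Polynomial.evalRingHom x) (C t) (List.ofFn fun j => X - C (V j))
  rw [Polynomial.coe_evalRingHom] at h
  rw [h, List.map_ofFn, Polynomial.eval_C]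
  congr 2
  funext j
  simp

lemma dpoly_scale (c t : R) (V : Fin q → R) :
    (dpoly (c * t) (fun j => c * V j)).comp (C c * X) = C (c ^ q) * dpoly t V := by
  unfold dpoly
  have h := disc_map (Polynomial.compRingHom (C c * X)) (C (c * t))
    (List.ofFn fun j => X - C (c * V j))
  rw [Polynomial.coe_compRingHom_apply] at h
  rw [h, List.map_ofFn]
  have h2 := disc_smul (C c) (C t) (List.ofFn fun j => X - C (V j))
  rw [List.length_ofFn, List.map_ofFn] at h2
  rw [C_pow, ← h2]
  congr 1
  · simp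
  · congr 1
    funext j
    simp [mul_sub]

lemma dpoly_zero_t (hq : q ≠ 0) (V : Fin q → R) : dpoly 0 V = ∏ j, (X - C (V j)) := by
  unfold dpoly
  rw [C_0, disc_zero, List.prod_ofFn]
  intro h
  have := congrArg List.length h
  simp at this
  exact hq this

lemma reverse_ofFn' {α : Type*} {n : ℕ} (f : Fin n → α) :
    (List.ofFn f).reverse = List.ofFn (fun j => f (Fin.rev j)) := by
  apply List.ext_getElem
  · simp
  · intro i h1 h2
    simp only [List.getElem_reverse, List.getElem_ofFn, List.length_ofFn]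
    congr 1
    apply Fin.ext
    simp only [Fin.val_rev]
    omega

lemma dpoly_parity (t : R) (V : Fin q → R) (hV : ∀ j, V j = - V (Fin.rev j)) :
    (dpoly t V).comp (-X) = C ((-1) ^ q) * dpoly t V := by
  unfold dpoly
  have h := disc_map (Polynomial.compRingHom (-X)) (C t) (List.ofFn fun j => X - C (V j))
  rw [Polynomial.coe_compRingHom_apply] at h
  rw [h, List.map_ofFn]
  have h2 := disc_neg (C t) ((List.ofFn fun j => X - C (V j)).reverse)
  rw [disc_reverse, List.length_reverse, List.length_ofFn] at h2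
  rw [C_pow, C_neg, C_1, ← h2]
  congr 1
  · simp
  · rw [reverse_ofFn', List.map_ofFn]
    congr 1
    funext j
    have h3 := hV j
    simp only [Function.comp_apply, Polynomial.coe_compRingHom_apply, sub_comp, X_comp, C_comp]
    rw [h3, C_neg]
    ring

end

/-- Floquet matrix over a commutative ring -/
def flo {R : Type*} [CommRing R] (q : ℕ) (V : Fin q → R) (z z' : R) : Matrix (Fin q) (Fin q) R :=
  Matrix.of fun i j => if i = j then V i else if (i : ℕ) + 1 = j ∨ (j : ℕ) + 1 = i then 1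
    else if (i : ℕ) = 0 ∧ (j : ℕ) + 1 = q then z'
    else if (i : ℕ) + 1 = q ∧ (j : ℕ) = 0 then z else 0

lemma flo_charpoly {R : Type*} [CommRing R] (q : ℕ) (hq : 3 ≤ q) (V : Fin q → R) (z z' : R)
    (hz : z * z' = 1) : (flo q V z z').charpoly = dpoly 1 V - C z - C z' := by
  obtain ⟨n, rfl⟩ : ∃ n, q = n + 3 := ⟨q - 3, by omega⟩
  have h := det_cyc n (fun j => (X : R[X]) - C (V j)) (C z) (C z') (by rw [← C_mul, hz, C_1])
  unfold dpoly
  rw [C_1, ← h, Matrix.charpoly]
  congr 1
  ext1 i j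
  rw [cyc_apply, charmatrix_apply, diagonal_apply]
  simp only [flo, Matrix.of_apply]
  by_cases h1 : i = j
  · simp [h1]
  · by_cases h2 : (i : ℕ) + 1 = j ∨ (j : ℕ) + 1 = i
    · simp [h1, h2]
    · by_cases h3 : (i : ℕ) = 0 ∧ (j : ℕ) = n + 2
      · have h3' : (i : ℕ) = 0 ∧ (j : ℕ) + 1 = n + 3 := by omega
        rw [if_neg h1, if_neg h2, if_pos h3', if_neg h1, if_neg h2, if_pos h3, if_neg h1]
        simp
      · have h3' : ¬ ((i : ℕ) = 0 ∧ (j : ℕ) + 1 = n + 3) := by omega
        by_cases h4 : (i : ℕ) = n + 2 ∧ (j : ℕ) = 0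
        · have h4' : (i : ℕ) + 1 = n + 3 ∧ (j : ℕ) = 0 := by omega
          rw [if_neg h1, if_neg h2, if_neg h3', if_pos h4', if_neg h1, if_neg h2, if_neg h3,
            if_pos h4, if_neg h1]
          simp
        · have h4' : ¬ ((i : ℕ) + 1 = n + 3 ∧ (j : ℕ) = 0) := by omega
          rw [if_neg h1, if_neg h2, if_neg h3', if_neg h4', if_neg h1, if_neg h2, if_neg h3,
            if_neg h4, if_neg h1]
          simp

section
variable {K : Type*} [Field K] {q : ℕ}

lemma dpoly_sub_degree (hq : 3 ≤ q) (V : Fin q → K) :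
    (dpoly 1 V - dpoly 1 (0 : Fin q → K)).degree < q := by
  have h1 := flo_charpoly q hq V 1 1 (by simp)
  have h2 := flo_charpoly q hq (0 : Fin q → K) 1 1 (by simp)
  have h3 : dpoly 1 V - dpoly 1 (0 : Fin q → K) =
      (flo q V 1 1).charpoly - (flo q (0 : Fin q → K) 1 1).charpoly := by
    rw [h1, h2]; ring
  rw [h3]
  have h4 := Matrix.charpoly_degree_eq_dim (flo q V 1 1)
  have h5 := Matrix.charpoly_degree_eq_dim (flo q (0 : Fin q → K) 1 1)
  have h6 := Matrix.charpoly_monic (flo q V 1 1)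
  have h7 := Matrix.charpoly_monic (flo q (0 : Fin q → K) 1 1)
  have h8 := degree_sub_lt_left (h4.trans h5.symm) h6.ne_zero (by rw [h6.leadingCoeff, h7.leadingCoeff])
  rw [h4] at h8
  simpa using h8

lemma dpoly_sub_parity [CharZero K] (V : Fin q → K) (hV : ∀ j, V j = - V (Fin.rev j))
    (k : ℕ) (hk : (k + q) % 2 = 1) : (dpoly 1 V - dpoly 1 (0 : Fin q → K)).coeff k = 0 := by
  set D := dpoly 1 V - dpoly 1 (0 : Fin q → K) with hD
  have h1 : D.comp (-X) = C ((-1) ^ q) * D := by
    rw [hD, sub_comp, dpoly_parity 1 V hV, dpoly_parity 1 (0 : Fin q → K) (by simp)]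
    ring
  have h2 := congrArg (fun p => p.coeff k) h1
  simp only [coeff_C_mul] at h2
  have h3 : (D.comp (-X)).coeff k = (-1) ^ k * D.coeff k := by
    have h30 : (-X : K[X]) = C (-1) * X := by simp
    rw [h30, Polynomial.comp_C_mul_X_coeff, mul_comm]
  rw [h3] at h2
  have h4 : (-1 : K) ^ (k + q) = -1 := by
    rw [← Nat.div_add_mod (k + q) 2, hk, pow_add, pow_mul]; simp
  have h5 : (-1 : K) ^ q * (-1 : K) ^ q = 1 := by rw [← pow_add, ← two_mul, pow_mul]; simp
  have h6 : -(D.coeff k) = D.coeff k := by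
    calc -(D.coeff k) = (-1 : K) ^ (k + q) * D.coeff k := by rw [h4]; ring
      _ = (-1) ^ q * ((-1) ^ k * D.coeff k) := by rw [pow_add]; ring
      _ = ((-1) ^ q * (-1) ^ q) * D.coeff k := by rw [h2]; ring
      _ = D.coeff k := by rw [h5, one_mul]
  have h7 : (2 : K) * D.coeff k = 0 := by linear_combination -h6
  simpa using h7

/-- the difference is a monomial as soon as the middle coefficients vanish. -/
lemma dpoly_sub_eq_monomial [CharZero K] (hq : 3 ≤ q) (V : Fin q → K)
    (hV : ∀ j, V j = - V (Fin.rev j))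
    (h : ∀ i < q / 2 - 1, (dpoly 1 V - dpoly 1 (0 : Fin q → K)).coeff (q % 2 + 2 * (i + 1)) = 0) :
    ∃ y : K, dpoly 1 V - dpoly 1 (0 : Fin q → K) = C y * X ^ (q % 2) := by
  refine ⟨(dpoly 1 V - dpoly 1 (0 : Fin q → K)).coeff (q % 2), ?_⟩
  ext k
  rw [coeff_C_mul_X_pow]
  split_ifs with hk
  · rw [hk]
  · by_cases hk1 : q ≤ k
    · exact coeff_eq_zero_of_degree_lt
        (lt_of_lt_of_le (dpoly_sub_degree hq V) (by exact_mod_cast hk1))
    · by_cases hk2 : (k + q) % 2 = 1
      · exact dpoly_sub_parity V hV k hk2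
      · have h1 := h ((k - q % 2) / 2 - 1) (by omega)
        have h2 : q % 2 + 2 * ((k - q % 2) / 2 - 1 + 1) = k := by omega
        rw [h2] at h1
        exact h1

end

end Pool.Agent.Work.MP_17669a_mp
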