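import Mathlib
import Pool.Agent.Work.MP_17669a_mp.Poly

set_option autoImplicit false

namespace Pool.Agent.Work.MP_17669a_mp

open Polynomial

/-- the hypothesis (to be refuted) that zero is the only solution over the field `k` -/
def OnlyZero (q : ℕ) (k : Type*) [Field k] : Prop :=
  ∀ V : Fin q → k, (∀ j, V j = - V (Fin.rev j)) → dpoly 1 V = dpoly 1 (0 : Fin q → k) → V = 0

/-- generic potential -/
noncomputable def gen (q : ℕ) : Fin q → MvPolynomial (Fin q) ℂ := fun j => MvPolynomial.X j

/-- coefficients of the generic difference of the discriminants -/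
noncomputable def gcoeff (q : ℕ) (k : ℕ) : MvPolynomial (Fin q) ℂ :=
  (dpoly 1 (gen q) - dpoly 1 (0 : Fin q → MvPolynomial (Fin q) ℂ)).coeff k

lemma gcoeff_map {q : ℕ} {A : Type*} [CommRing A] [Algebra ℂ A] (V : Fin q → A) (k : ℕ) :
    MvPolynomial.aeval V (gcoeff q k) = (dpoly 1 V - dpoly 1 (0 : Fin q → A)).coeff k := by
  have h1 := dpoly_map (MvPolynomial.aeval V : MvPolynomial (Fin q) ℂ →ₐ[ℂ] A).toRingHom 1 (gen q)
  have h2 := dpoly_map (MvPolynomial.aeval V : MvPolynomial (Fin q) ℂ →ₐ[ℂ] A).toRingHom 1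
    (0 : Fin q → MvPolynomial (Fin q) ℂ)
  unfold gcoeff
  have h3 : (MvPolynomial.aeval V : MvPolynomial (Fin q) ℂ →ₐ[ℂ] A)
      ((dpoly 1 (gen q) - dpoly 1 (0 : Fin q → MvPolynomial (Fin q) ℂ)).coeff k) =
      (((dpoly 1 (gen q) - dpoly 1 (0 : Fin q → MvPolynomial (Fin q) ℂ))).map
      (MvPolynomial.aeval V : MvPolynomial (Fin q) ℂ →ₐ[ℂ] A).toRingHom).coeff k := by
    rw [Polynomial.coeff_map]; rfl
  rw [h3, Polynomial.map_sub, h1, h2]
  congr 2
  · congr 1
    · simp
    · funext j; simp [gen]
  · congr 1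
    · simp

/-- Nullstellensatz transfer to all extension fields. -/
lemma onlyZero_ext {q : ℕ} (H : OnlyZero q ℂ) {k : Type*} [Field k] (ι : ℂ →+* k) :
    OnlyZero q k := by
  let _ := ι.toAlgebra
  intro V hV hD
  set I : Ideal (MvPolynomial (Fin q) ℂ) := Ideal.span
    (Set.range (fun j : Fin q => MvPolynomial.X j + MvPolynomial.X (Fin.rev j)) ∪
      Set.range (gcoeff q)) with hI
  have hz : MvPolynomial.zeroLocus ℂ I ⊆ {0} := by
    intro W hW
    rw [MvPolynomial.mem_zeroLocus_iff] at hW
    have h1 : ∀ j, W j = - W (Fin.rev j) := by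
      intro j
      have := hW _ (Ideal.subset_span (Or.inl ⟨j, rfl⟩))
      simp only [map_add, MvPolynomial.aeval_X] at this
      linear_combination this
    have h2 : dpoly 1 W = dpoly 1 (0 : Fin q → ℂ) := by
      rw [← sub_eq_zero]
      ext k
      have := hW _ (Ideal.subset_span (Or.inr ⟨k, rfl⟩))
      rw [gcoeff_map] at this
      rw [this, coeff_zero]
    exact H W h1 h2
  have hX : ∀ j : Fin q, (MvPolynomial.X j : MvPolynomial (Fin q) ℂ) ∈ I.radical := by
    intro j
    rw [← MvPolynomial.vanishingIdeal_zeroLocus_eq_radical (K := ℂ) I,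
      MvPolynomial.mem_vanishingIdeal_iff]
    intro W hW
    have := hz hW
    rw [Set.mem_singleton_iff] at this
    simp [this]
  have hI0 : ∀ p ∈ I, MvPolynomial.aeval V p = 0 := by
    intro p hp
    have hle : I ≤ RingHom.ker (MvPolynomial.aeval V : MvPolynomial (Fin q) ℂ →ₐ[ℂ] k) := by
      rw [hI, Ideal.span_le]
      rintro p (⟨j, rfl⟩ | ⟨m, rfl⟩)
      · show _ ∈ RingHom.ker _
        rw [RingHom.mem_ker]
        simp only [map_add, MvPolynomial.aeval_X]
        rw [hV j]; ring
      · show _ ∈ RingHom.ker _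
        rw [RingHom.mem_ker, gcoeff_map, hD]
        simp
    exact hle hp
  funext j
  obtain ⟨N, hN⟩ := hX j
  have := hI0 _ hN
  rw [map_pow, MvPolynomial.aeval_X] at this
  by_contra hne
  exact pow_ne_zero N hne this

/-- the chain of coordinate primes -/
noncomputable def chainMap (q : ℕ) (i : ℕ) : MvPolynomial (Fin q) ℂ →ₐ[ℂ] MvPolynomial (Fin q) ℂ :=
  MvPolynomial.aeval (fun j => if (j : ℕ) < i then 0 else MvPolynomial.X j)

lemma chain_prime (q i : ℕ) : (RingHom.ker (chainMap q i)).IsPrime :=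
  RingHom.ker_isPrime _

lemma chain_height (q i : ℕ) (hi : i ≤ q) : (i : ℕ∞) ≤ (RingHom.ker (chainMap q i)).height := by
  induction i with
  | zero => simp
  | succ i ih =>
    have h1 : RingHom.ker (chainMap q i) < RingHom.ker (chainMap q (i + 1)) := by
      rw [SetLike.lt_iff_le_and_exists]
      constructor
      · intro p hp
        rw [RingHom.mem_ker] at hp ⊢
        have h2 : (chainMap q (i + 1)).comp (chainMap q i) = chainMap q (i + 1) := by
          apply MvPolynomial.algHom_ext
          intro j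
          simp only [chainMap, AlgHom.comp_apply, MvPolynomial.aeval_X]
          by_cases h3 : (j : ℕ) < i
          · rw [if_pos h3, if_pos (by omega), map_zero]
          · rw [if_neg h3, MvPolynomial.aeval_X]
        rw [← h2, AlgHom.comp_apply, hp, map_zero]
      · refine ⟨MvPolynomial.X ⟨i, by omega⟩, ?_, ?_⟩
        · rw [RingHom.mem_ker]
          simp [chainMap]
        · rw [RingHom.mem_ker]
          simp [chainMap]
    have hp1 := chain_prime q i
    have hp2 := chain_prime q (i + 1)
    have h3 := Ideal.height_add_one_le_of_lt_of_isPrime h1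
    calc ((i + 1 : ℕ) : ℕ∞) = (i : ℕ∞) + 1 := by push_cast; rfl
      _ ≤ (RingHom.ker (chainMap q i)).height + 1 := by gcongr; exact ih (by omega)
      _ ≤ _ := h3

/-- existence of a non-constant point of the curve. -/
lemma exists_curve_point {q : ℕ} (hq : 4 ≤ q) :
    ∃ (K : Type) (_ : Field K) (_ : Algebra ℂ K) (V : Fin q → K),
      (∀ j, V j = - V (Fin.rev j)) ∧
      (∃ y : K, dpoly 1 V - dpoly 1 (0 : Fin q → K) = C y * X ^ (q % 2)) ∧
      ∃ i, V i ∉ (algebraMap ℂ K).range := by
  classical
  set G1 : Finset (MvPolynomial (Fin q) ℂ) := (Finset.range ((q + 1) / 2)).image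
    (fun j => if h : j < q then MvPolynomial.X ⟨j, h⟩ + MvPolynomial.X (Fin.rev ⟨j, h⟩) else 0)
    with hG1
  set G2 : Finset (MvPolynomial (Fin q) ℂ) := (Finset.range (q / 2 - 1)).image
    (fun i => gcoeff q (q % 2 + 2 * (i + 1))) with hG2
  have hcard : (G1 ∪ G2).card < q := by
    have h1 : G1.card ≤ (q + 1) / 2 := by
      have := Finset.card_image_le (s := Finset.range ((q + 1) / 2)) (f := fun j => if h : j < q then (MvPolynomial.X ⟨j, h⟩ : MvPolynomial (Fin q) ℂ) + MvPolynomial.X (Fin.rev ⟨j, h⟩) else 0)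
      rwa [Finset.card_range] at this
    have h2 : G2.card ≤ q / 2 - 1 := by
      have := Finset.card_image_le (s := Finset.range (q / 2 - 1)) (f := fun i => gcoeff q (q % 2 + 2 * (i + 1)))
      rwa [Finset.card_range] at this
    have h3 := Finset.card_union_le G1 G2
    omega
  set m0 : Ideal (MvPolynomial (Fin q) ℂ) := RingHom.ker (chainMap q q) with hm0
  have hm0' : ∀ p, p ∈ m0 ↔ MvPolynomial.aeval (0 : Fin q → ℂ) p = 0 := by
    intro p
    rw [hm0, RingHom.mem_ker]
    have h1 : chainMap q q = (Algebra.ofId ℂ (MvPolynomial (Fin q) ℂ)).comp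
        (MvPolynomial.aeval (0 : Fin q → ℂ)) := by
      apply MvPolynomial.algHom_ext
      intro j
      simp [chainMap]
    rw [h1, AlgHom.comp_apply]
    constructor
    · intro h
      have h2 : Function.Injective (Algebra.ofId ℂ (MvPolynomial (Fin q) ℂ)) :=
        MvPolynomial.C_injective _ _
      exact h2 (by rw [h, map_zero])
    · intro h
      rw [h, map_zero]
  have hle : Ideal.span ((G1 ∪ G2 : Finset _) : Set (MvPolynomial (Fin q) ℂ)) ≤ m0 := by
    rw [Ideal.span_le]
    intro p hp
    rw [Finset.mem_coe, Finset.mem_union] at hp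
    show p ∈ m0
    rw [hm0']
    rcases hp with hp | hp
    · rw [hG1, Finset.mem_image] at hp
      obtain ⟨j, _, rfl⟩ := hp
      split_ifs <;> simp
    · rw [hG2, Finset.mem_image] at hp
      obtain ⟨i, _, rfl⟩ := hp
      rw [gcoeff_map]
      simp
  have hm0p : m0.IsPrime := chain_prime q q
  obtain ⟨P, hP1, hP2⟩ := Ideal.exists_minimalPrimes_le hle
  have hPprime : P.IsPrime := hP1.1.1
  have hPG : Ideal.span ((G1 ∪ G2 : Finset _) : Set (MvPolynomial (Fin q) ℂ)) ≤ P := hP1.1.2
  have hh := Ideal.height_le_card_of_mem_minimalPrimes_span_finset hP1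
  have hne : ¬ m0 ≤ P := by
    intro hle'
    have h1 := chain_height q q le_rfl
    have h2 : (q : ℕ∞) ≤ ((G1 ∪ G2).card : ℕ∞) := by
      calc (q : ℕ∞) ≤ m0.height := h1
        _ ≤ P.height := Ideal.height_mono hle'
        _ ≤ _ := hh
    have h3 : q ≤ (G1 ∪ G2).card := by exact_mod_cast h2
    omega
  let A := MvPolynomial (Fin q) ℂ ⧸ P
  let K := FractionRing A
  let φ : MvPolynomial (Fin q) ℂ →ₐ[ℂ] K := (Algebra.algHom ℂ A K).comp (Ideal.Quotient.mkₐ ℂ P)
  have hφ : ∀ p, φ p = 0 ↔ p ∈ P := by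
    intro p
    constructor
    · intro h
      have h1 : algebraMap A K (Ideal.Quotient.mk P p) = 0 := h
      rw [← map_zero (algebraMap A K)] at h1
      have h2 := IsFractionRing.injective A K h1
      exact Ideal.Quotient.eq_zero_iff_mem.1 h2
    · intro h
      show algebraMap A K (Ideal.Quotient.mk P p) = 0
      rw [Ideal.Quotient.eq_zero_iff_mem.2 h, map_zero]
  let V : Fin q → K := fun j => φ (MvPolynomial.X j)
  have hφV : φ = MvPolynomial.aeval V := by
    apply MvPolynomial.algHom_ext
    intro j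
    simp [V]
  have hanti : ∀ j, V j = - V (Fin.rev j) := by
    intro j
    have key : ∀ i : ℕ, i < (q + 1) / 2 → ∀ h : i < q,
        V ⟨i, h⟩ = - V (Fin.rev ⟨i, h⟩) := by
      intro i hi h
      have h1 : MvPolynomial.X ⟨i, h⟩ + MvPolynomial.X (Fin.rev ⟨i, h⟩) ∈ P := by
        apply hPG
        apply Ideal.subset_span
        rw [Finset.mem_coe, Finset.mem_union]
        left
        rw [hG1, Finset.mem_image]
        exact ⟨i, Finset.mem_range.2 hi, by rw [dif_pos h]⟩
      have h2 := (hφ _).2 h1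
      rw [map_add] at h2
      exact eq_neg_of_add_eq_zero_left h2
    by_cases hj : (j : ℕ) < (q + 1) / 2
    · exact key j hj j.2
    · have hr : ((Fin.rev j : Fin q) : ℕ) < (q + 1) / 2 := by
        rw [Fin.val_rev]; omega
      have h3 := key (Fin.rev j) hr (Fin.rev j).2
      simp only [Fin.eta, Fin.rev_rev] at h3
      rw [h3, neg_neg]
  have : CharZero K := by
    exact charZero_of_injective_algebraMap (algebraMap ℂ K).injective
  refine ⟨K, inferInstance, inferInstance, V, hanti, ?_, ?_⟩
  · apply dpoly_sub_eq_monomial (by omega) V hanti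
    intro i hi
    rw [← gcoeff_map V, ← hφV]
    rw [hφ]
    apply hPG
    apply Ideal.subset_span
    rw [Finset.mem_coe, Finset.mem_union]
    right
    rw [hG2, Finset.mem_image]
    exact ⟨i, Finset.mem_range.2 hi, rfl⟩
  · by_contra hcon
    push Not at hcon
    apply hne
    have hX : ∀ j : Fin q, MvPolynomial.X j ∈ P := by
      intro j
      obtain ⟨c, hc⟩ := hcon j
      have h1 : φ (MvPolynomial.X j - MvPolynomial.C c) = 0 := by
        rw [map_sub]
        have h2 : φ (MvPolynomial.C c) = algebraMap ℂ K c := by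
          rw [← MvPolynomial.algebraMap_eq]; exact φ.commutes c
        rw [h2, hc]
        simp [V]
      have h3 := (hφ _).1 h1
      have h4 := (hm0' _).1 (hP2 h3)
      have h5 : c = 0 := by simpa using h4
      rw [h5] at h3
      simpa using h3
    intro p hp
    rw [hm0'] at hp
    have h6 : (φ : MvPolynomial (Fin q) ℂ →ₐ[ℂ] K) =
        (Algebra.ofId ℂ K).comp (MvPolynomial.aeval (0 : Fin q → ℂ)) := by
      apply MvPolynomial.algHom_ext
      intro j
      rw [(hφ _).2 (hX j)]
      simp
    rw [← hφ, h6, AlgHom.comp_apply, hp, map_zero]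

end Pool.Agent.Work.MP_17669a_mp
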