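import Mathlib
import Pool.Agent.Work.MP_17669a_mp.Geom

set_option autoImplicit false

namespace Pool.Agent.Work.MP_17669a_mp

open Polynomial

/-- Fourier argument: an antisymmetric vector with vanishing second order term is zero. -/
lemma fourier_zero {q : ℕ} (hq : 1 ≤ q) {k : Type*} [Field k] [CharZero k] (ι : ℂ →+* k)
    (v : Fin q → k) (hv : ∀ j, v j = - v (Fin.rev j))
    (h : ∀ x : ℂ, x ^ (2 * q) = 1 → x ^ 2 ≠ 1 →
      (∑ j, v j) ^ 2 - (∑ j, v j * ι x ^ (2 * (j : ℕ))) * (∑ j, v j * ι x⁻¹ ^ (2 * (j : ℕ))) = 0) :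
    v = 0 := by
  have hs0 : ∑ j, v j = 0 := by
    have h1 : ∑ j, v (Fin.rev j) = ∑ j, v j := Equiv.sum_comp Fin.revPerm v
    have h2 : ∑ j, v j = - ∑ j, v (Fin.rev j) := by
      rw [← Finset.sum_neg_distrib]
      exact Finset.sum_congr rfl fun j _ => hv j
    rw [h1] at h2
    have h3 : (2 : k) * ∑ j, v j = 0 := by linear_combination h2
    simpa using h3
  have hprim := Complex.isPrimitiveRoot_exp (2 * q) (by omega)
  set η : ℂ := Complex.exp (2 * Real.pi * Complex.I / ((2 * q : ℕ) : ℂ)) with hη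
  have hηpow : η ^ (2 * q) = 1 := hprim.pow_eq_one
  have hζ : IsPrimitiveRoot (η ^ 2) q := hprim.pow (by omega) rfl
  have hη0 : η ≠ 0 := hprim.ne_zero (by omega)
  have key : ∀ i : Fin q, ∑ j, v j * (ι ((η ^ 2) ^ (i : ℕ))) ^ (j : ℕ) = 0 := by
    intro i
    by_cases hi : (i : ℕ) = 0
    · rw [hi]; simpa using hs0
    · set x : ℂ := η ^ (i : ℕ) with hx
      have hx0 : x ≠ 0 := pow_ne_zero _ hη0
      have hxq : x ^ (2 * q) = 1 := by
        rw [hx, ← pow_mul, mul_comm, pow_mul, hηpow, one_pow]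
      have hx2 : x ^ 2 = (η ^ 2) ^ (i : ℕ) := by
        rw [hx, ← pow_mul, ← pow_mul, mul_comm]
      have hx2' : x ^ 2 ≠ 1 := by
        rw [hx2]
        exact hζ.pow_ne_one_of_pos_of_lt hi i.2
      have h1 := h x hxq hx2'
      rw [hs0] at h1
      set A := ∑ j, v j * ι x ^ (2 * (j : ℕ)) with hA
      set B := ∑ j, v j * ι x⁻¹ ^ (2 * (j : ℕ)) with hB
      have hxx : ι x * ι x⁻¹ = 1 := by rw [← map_mul, mul_inv_cancel₀ hx0, map_one]
      have hBA : B = - (ι x ^ 2 * A) := by
        have h2 : B = ∑ j, v (Fin.rev j) * ι x⁻¹ ^ (2 * ((Fin.rev j : Fin q) : ℕ)) :=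
          (Equiv.sum_comp Fin.revPerm (fun j => v j * ι x⁻¹ ^ (2 * (j : ℕ)))).symm
        rw [h2, hA, Finset.mul_sum, ← Finset.sum_neg_distrib]
        refine Finset.sum_congr rfl fun j _ => ?_
        have h3 : v (Fin.rev j) = - v j := by rw [hv j, neg_neg]
        have h4 : ι x⁻¹ ^ (2 * ((Fin.rev j : Fin q) : ℕ)) = ι x ^ 2 * ι x ^ (2 * (j : ℕ)) := by
          have h5 : ι x ^ (2 * (q - 1 - (j : ℕ))) * (ι x ^ 2 * ι x ^ (2 * (j : ℕ))) = 1 := by
            rw [← pow_add, ← pow_add, ← map_pow]
            have h6 : 2 * (q - 1 - (j : ℕ)) + (2 + 2 * (j : ℕ)) = 2 * q := by have := j.2; omega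
            rw [h6, hxq, map_one]
          have h7 : ι x ^ (2 * (q - 1 - (j : ℕ))) * ι x⁻¹ ^ (2 * (q - 1 - (j : ℕ))) = 1 := by
            rw [← mul_pow, hxx, one_pow]
          have h8 : ((Fin.rev j : Fin q) : ℕ) = q - 1 - (j : ℕ) := by rw [Fin.val_rev]; omega
          rw [h8]
          have h9 : ι x ^ (2 * (q - 1 - (j : ℕ))) ≠ 0 := by
            intro h0; rw [h0, zero_mul] at h7; exact zero_ne_one h7
          exact mul_left_cancel₀ h9 (h7.trans h5.symm)
        rw [h3, h4]; ring
      have h10 : ι x ^ 2 * (A * A) = 0 := by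
        rw [hBA] at h1
        linear_combination h1
      have h11 : ι x ^ 2 ≠ 0 := by
        intro h0
        have : ι x = 0 := by
          by_contra h0'
          exact pow_ne_zero 2 h0' h0
        rw [this, zero_mul] at hxx
        exact zero_ne_one hxx
      have h12 : A = 0 := by
        rcases mul_eq_zero.1 h10 with h | h
        · exact absurd h h11
        · exact mul_self_eq_zero.1 h
      rw [← h12, hA]
      refine Finset.sum_congr rfl fun j _ => ?_
      rw [← hx2, map_pow, ← pow_mul]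
  set p : k[X] := ∑ j : Fin q, C (v j) * X ^ (j : ℕ) with hp
  have hdeg : p.natDegree < q := by
    rw [hp]
    apply lt_of_le_of_lt (Polynomial.natDegree_sum_le_of_forall_le (n := q - 1) _ _ ?_) (by omega)
    intro j _
    refine (Polynomial.natDegree_C_mul_X_pow_le _ _).trans ?_
    have := j.2; omega
  have hinj : Function.Injective (fun i : Fin q => ι ((η ^ 2) ^ (i : ℕ))) := by
    intro a b hab
    have h1 := ι.injective hab
    exact Fin.ext (hζ.pow_inj a.2 b.2 h1)
  have hp0 : p = 0 := by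
    apply Polynomial.eq_zero_of_natDegree_lt_card_of_eval_eq_zero p hinj
    · intro i
      rw [hp, Polynomial.eval_finsetSum]
      simpa using key i
    · simpa using hdeg
  funext j
  have h1 : p.coeff (j : ℕ) = v j := by
    rw [hp, Polynomial.finsetSum_coeff, Finset.sum_eq_single j]
    · simp
    · intro b _ hb
      rw [Polynomial.coeff_C_mul_X_pow, if_neg]
      intro h
      exact hb (Fin.ext h.symm)
    · intro h; exact absurd (Finset.mem_univ _) h
  rw [← h1, hp0]; simp

section
variable {K : Type*} [Field K] {q : ℕ}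

lemma mem_max (O : ValuationSubring K) (a : O) (ha : (a : K)⁻¹ ∉ O) :
    a ∈ IsLocalRing.maximalIdeal O := by
  rw [IsLocalRing.mem_maximalIdeal, mem_nonunits_iff]
  intro h
  obtain ⟨b, hb⟩ := h.exists_right_inv
  apply ha
  have h1 : (a : K) * (b : K) = 1 := by
    have := congrArg (Subtype.val) hb
    simpa using this
  have h2 : (a : K)⁻¹ = b := inv_eq_of_mul_eq_one_right h1
  rw [h2]; exact b.2

lemma scaled_identity (V : Fin q → K) (y p : K) (d : ℕ) (hp : p ≠ 0)
    (h : dpoly 1 V - dpoly 1 (0 : Fin q → K) = C y * X ^ d) :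
    dpoly p⁻¹ (fun j => V j / p) - dpoly p⁻¹ (0 : Fin q → K) = C (y * p ^ d / p ^ q) * X ^ d := by
  have h1 := dpoly_scale p p⁻¹ (fun j => V j / p)
  have h2 := dpoly_scale p p⁻¹ (0 : Fin q → K)
  rw [mul_inv_cancel₀ hp] at h1 h2
  have e1 : (fun j => p * (V j / p)) = V := by
    funext j; field_simp
  have e2 : (fun j => p * (0 : Fin q → K) j) = (0 : Fin q → K) := by
    funext j; simp
  rw [e1] at h1
  rw [e2] at h2
  have h3 := congrArg (fun r => r.comp (C p * X)) h
  simp only [sub_comp, mul_comp, C_comp, X_pow_comp] at h3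
  rw [h1, h2] at h3
  have hpq : p ^ q ≠ 0 := pow_ne_zero _ hp
  have h4 : C (p ^ q) * (dpoly p⁻¹ (fun j => V j / p) - dpoly p⁻¹ (0 : Fin q → K)) =
      C (p ^ q) * (C (y * p ^ d / p ^ q) * X ^ d) := by
    rw [mul_sub, h3, mul_pow, ← C_pow, ← mul_assoc, ← mul_assoc, ← C_mul, ← C_mul]
    congr 2
    field_simp
  exact mul_left_cancel₀ (by rwa [Ne, C_eq_zero]) h4

/-- behaviour at infinity -/
lemma no_infinity (hq : q ≠ 0) (O : ValuationSubring K) (V : Fin q → K) (y : K) (d : ℕ)
    (h : dpoly 1 V - dpoly 1 (0 : Fin q → K) = C y * X ^ d)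
    (j0 : Fin q) (hmax : ∀ j, V j / V j0 ∈ O) (hinf : V j0 ∉ O)
    (w : O) (hw : (w : K) = y * V j0 ^ d / V j0 ^ q) (hwm : w ∈ IsLocalRing.maximalIdeal O) :
    False := by
  have hp : V j0 ≠ 0 := by
    intro h0; apply hinf; rw [h0]; exact O.zero_mem
  set p := V j0 with hpdef
  have hpinv : p⁻¹ ∈ O := (O.mem_or_inv_mem p).resolve_left hinf
  set t : O := ⟨p⁻¹, hpinv⟩ with ht
  have htm : t ∈ IsLocalRing.maximalIdeal O := by
    apply mem_max
    rw [ht]
    simpa using hinf
  set V' : Fin q → O := fun j => ⟨V j / p, hmax j⟩ with hV'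
  have h1 := scaled_identity V y p d hp h
  have h2 : dpoly t V' - dpoly t (0 : Fin q → O) = C w * X ^ d := by
    apply Polynomial.map_injective O.subtype Subtype.val_injective
    rw [Polynomial.map_sub, dpoly_map, dpoly_map, Polynomial.map_mul, Polynomial.map_pow,
      Polynomial.map_X, Polynomial.map_C]
    have e1 : O.subtype t = p⁻¹ := rfl
    have e2 : (fun j => O.subtype (V' j)) = fun j => V j / p := rfl
    have e3 : (fun j => O.subtype ((0 : Fin q → O) j)) = (0 : Fin q → K) := by
      funext j; simp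
    have e4 : O.subtype w = y * p ^ d / p ^ q := hw
    rw [e1, e2, e3, e4]
    exact h1
  have h3 := congrArg (Polynomial.map (IsLocalRing.residue O)) h2
  rw [Polynomial.map_sub, dpoly_map, dpoly_map, Polynomial.map_mul, Polynomial.map_C,
    (IsLocalRing.residue_eq_zero_iff w).2 hwm, (IsLocalRing.residue_eq_zero_iff t).2 htm, C_0,
    zero_mul, dpoly_zero_t hq, dpoly_zero_t hq] at h3
  have h4 := congrArg (Polynomial.eval 1) h3
  rw [Polynomial.eval_sub, Polynomial.eval_prod, Polynomial.eval_prod,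
    Finset.prod_eq_zero (Finset.mem_univ j0)] at h4
  · simp at h4
  · have e5 : V' j0 = 1 := by
      apply Subtype.ext
      show V j0 / p = 1
      rw [← hpdef]; exact div_self hp
    rw [e5]; simp

/-- behaviour near zero -/
lemma main_val (hq : 4 ≤ q) (ι0 : ℂ →+* K) (O : ValuationSubring K) (hO : ∀ c, ι0 c ∈ O)
    (hk : OnlyZero q (IsLocalRing.ResidueField O))
    (V : Fin q → K) (hV : ∀ j, V j = - V (Fin.rev j)) (y : K)
    (h : dpoly 1 V - dpoly 1 (0 : Fin q → K) = C y * X ^ (q % 2))
    (j0 : Fin q) (hp : V j0 ≠ 0) (hmax : ∀ j, V j / V j0 ∈ O)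
    (u : O) (hu : (u : K) = y / V j0 ^ 2) (hum : u ∈ IsLocalRing.maximalIdeal O) :
    False := by
  set p := V j0 with hpdef
  set V' : Fin q → O := fun j => ⟨V j / p, hmax j⟩ with hV'
  have hV'j0 : V' j0 = 1 := by
    apply Subtype.ext
    show V j0 / p = 1
    rw [← hpdef]; exact div_self hp
  have hV'anti : ∀ j, V' j = - V' (Fin.rev j) := by
    intro j
    apply Subtype.ext
    show V j / p = - (V (Fin.rev j) / p)
    rw [hV j]; ring
  have hy : y = (u : K) * p ^ 2 := by rw [hu]; field_simp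
  by_cases hpO : p ∈ O
  · set P : O := ⟨p, hpO⟩ with hP
    by_cases hpi : p⁻¹ ∈ O
    · -- unit case
      have hVO : ∀ j, V j ∈ O := by
        intro j
        have : V j = (V j / p) * p := by field_simp
        rw [this]; exact O.mul_mem _ _ (hmax j) hpO
      set W : Fin q → O := fun j => ⟨V j, hVO j⟩ with hW
      have h2 : dpoly 1 W - dpoly 1 (0 : Fin q → O) = C (u * P ^ 2) * X ^ (q % 2) := by
        apply Polynomial.map_injective O.subtype Subtype.val_injective
        rw [Polynomial.map_sub, dpoly_map, dpoly_map, Polynomial.map_mul, Polynomial.map_pow,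
          Polynomial.map_X, Polynomial.map_C]
        have e2 : (fun j => O.subtype (W j)) = V := rfl
        have e3 : (fun j => O.subtype ((0 : Fin q → O) j)) = (0 : Fin q → K) := by
          funext j; simp
        have e4 : O.subtype (u * P ^ 2) = y := by
          rw [map_mul, map_pow]; exact hy.symm
        rw [map_one, e2, e3, e4]
        exact h
      have h3 := congrArg (Polynomial.map (IsLocalRing.residue O)) h2
      rw [Polynomial.map_sub, dpoly_map, dpoly_map, Polynomial.map_mul, Polynomial.map_C,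
        map_mul, (IsLocalRing.residue_eq_zero_iff u).2 hum, zero_mul, C_0, zero_mul, map_one,
        sub_eq_zero] at h3
      have h4 := hk (fun j => IsLocalRing.residue O (W j)) (by
        intro j
        rw [← map_neg]
        congr 1
        exact Subtype.ext (hV j)) (by
        rw [h3]
        congr 1
        )
      have h5 := congrFun h4 j0
      have h6 : W j0 ∈ IsLocalRing.maximalIdeal O := (IsLocalRing.residue_eq_zero_iff _).1 h5
      rw [IsLocalRing.mem_maximalIdeal, mem_nonunits_iff] at h6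
      apply h6
      refine IsUnit.of_mul_eq_one ⟨p⁻¹, hpi⟩ ?_
      apply Subtype.ext
      show V j0 * p⁻¹ = 1
      rw [← hpdef]; exact mul_inv_cancel₀ hp
    · -- small case
      have hPm : P ∈ IsLocalRing.maximalIdeal O := mem_max O P hpi
      let ι : ℂ →+* O := ι0.codRestrict O hO
      let ρ := IsLocalRing.residue O
      have hchar : CharZero (IsLocalRing.ResidueField O) :=
        charZero_of_injective_ringHom (ρ.comp ι).injective
      have hfz := fourier_zero (by omega) (ρ.comp ι) (fun j => ρ (V' j)) (by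
        intro j
        show ρ (V' j) = - ρ (V' (Fin.rev j))
        rw [← map_neg, ← hV'anti j]) (by
        intro x hx1 hx2
        have hx0 : x ≠ 0 := by
          rintro rfl
          rw [zero_pow (by omega)] at hx1
          exact zero_ne_one hx1
        have hxx : x - x⁻¹ ≠ 0 := by
          intro h0
          apply hx2
          have : x = x⁻¹ := sub_eq_zero.1 h0
          rw [pow_two]
          nth_rw 2 [this]
          exact mul_inv_cancel₀ hx0
        set e := x ^ q with he
        have he2 : e * e = 1 := by rw [he, ← pow_add, ← two_mul, hx1]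
        have he' : x⁻¹ ^ q = e := by
          rw [inv_pow, ← he]
          exact inv_eq_of_mul_eq_one_left he2
        set s := (x - x⁻¹)⁻¹ with hs
        have hs1 : s * (x - x⁻¹) = 1 := inv_mul_cancel₀ hxx
        obtain ⟨c, hc⟩ := disc_expansion (ι x) (ι x⁻¹) (ι s) P (ι e)
          (by rw [← map_mul, mul_inv_cancel₀ hx0, map_one])
          (by rw [← map_sub, ← map_mul, hs1, map_one]) q
          (by rw [← map_pow]) (by rw [← map_pow, he']) V'
        obtain ⟨c0, hc0⟩ := disc_expansion (ι x) (ι x⁻¹) (ι s) 0 (ι e)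
          (by rw [← map_mul, mul_inv_cancel₀ hx0, map_one])
          (by rw [← map_sub, ← map_mul, hs1, map_one]) q
          (by rw [← map_pow]) (by rw [← map_pow, he']) V'
        -- evaluate the polynomial identity
        have h2 := congrArg (Polynomial.eval (ι0 x + ι0 x⁻¹)) h
        rw [Polynomial.eval_sub, dpoly_eval, dpoly_eval, Polynomial.eval_mul, Polynomial.eval_C,
          Polynomial.eval_pow, Polynomial.eval_X] at h2
        have e1 : disc 1 (List.ofFn fun j => ι0 x + ι0 x⁻¹ - V j) =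
            O.subtype (disc 1 (List.ofFn fun j => ι x + ι x⁻¹ - P * V' j)) := by
          rw [disc_map, List.map_ofFn, map_one]
          congr 2
          funext j
          show ι0 x + ι0 x⁻¹ - V j = ι0 x + ι0 x⁻¹ - p * (V j / p)
          field_simp
        have e2 : disc 1 (List.ofFn fun j => ι0 x + ι0 x⁻¹ - (0 : Fin q → K) j) =
            O.subtype (disc 1 (List.ofFn fun j => ι x + ι x⁻¹ - 0 * V' j)) := by
          rw [disc_map, List.map_ofFn, map_one]
          congr 2
          funext j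
          show ι0 x + ι0 x⁻¹ - 0 = ι0 x + ι0 x⁻¹ - 0 * (V j / p)
          ring
        rw [e1, e2, hc, hc0] at h2
        set Sg : O := (∑ j, V' j) ^ 2 - (∑ j, V' j * ι x ^ (2 * (j : ℕ))) *
          (∑ j, V' j * ι x⁻¹ ^ (2 * (j : ℕ))) with hSg
        have h3 : ι e * (ι s) ^ 2 * (Sg + ι s * P * c) = u * (ι x + ι x⁻¹) ^ (q % 2) := by
          apply Subtype.val_injective
          have hp2 : (p : K) ^ 2 ≠ 0 := pow_ne_zero _ hp
          apply mul_left_cancel₀ hp2
          have e3 : (p : K) = O.subtype P := rfl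
          have e4 : ι0 x + ι0 x⁻¹ = O.subtype (ι x + ι x⁻¹) := rfl
          rw [hy, e3, e4] at h2
          have e5 : ∀ a : O, (a : K) = O.subtype a := fun _ => rfl
          rw [e5, e5, e3]
          simp only [← map_mul, ← map_pow, ← map_add, ← map_sub, e5] at h2 ⊢
          have hinjO : Function.Injective O.subtype := Subtype.val_injective
          have h2' := hinjO h2
          congr 1
          simp only [map_pow, map_add, map_mul] at h2' ⊢
          linear_combination h2'
        have h4 := congrArg ρ h3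
        rw [map_mul, map_mul ρ u, (IsLocalRing.residue_eq_zero_iff u).2 hum, zero_mul,
          map_add, map_mul ρ _ c, map_mul ρ _ P, (IsLocalRing.residue_eq_zero_iff P).2 hPm,
          mul_zero, zero_mul, add_zero] at h4
        have h5 : ρ (ι e * ι s ^ 2) ≠ 0 := by
          rw [← map_pow, ← map_mul]
          have : e * s ^ 2 ≠ 0 := by
            apply mul_ne_zero
            · exact pow_ne_zero _ hx0
            · exact pow_ne_zero _ (inv_ne_zero hxx)
          intro h0
          exact this ((ρ.comp ι).injective (by rw [map_zero]; exact h0))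
        have h6 : ρ Sg = 0 := (mul_eq_zero.1 h4).resolve_left h5
        rw [hSg, map_sub, map_mul, map_pow, map_sum, map_sum, map_sum] at h6
        simp only [map_mul, map_pow] at h6
        exact h6)
      have h7 := congrFun hfz j0
      have h8 : ρ (V' j0) = 0 := h7
      rw [hV'j0, map_one] at h8
      exact one_ne_zero h8
  · -- infinite case
    have hpinv : p⁻¹ ∈ O := (O.mem_or_inv_mem p).resolve_left hpO
    refine no_infinity (by omega) O V y (q % 2) h j0 hmax hpO
      (u * (⟨p⁻¹, hpinv⟩ : O) ^ (q - q % 2 - 2)) ?_ (Ideal.mul_mem_right _ _ hum)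
    show (u : K) * (p⁻¹) ^ (q - q % 2 - 2) = y * p ^ (q % 2) / p ^ q
    rw [hy]
    have e1 : p ^ q = p ^ 2 * p ^ (q % 2) * p ^ (q - q % 2 - 2) := by
      rw [← pow_add, ← pow_add]; congr 1; omega
    rw [e1, inv_pow]
    field_simp

/-- algebraically closed constants -/
lemma mem_range_of_all [Algebra ℂ K] (x : K)
    (h : ∀ O : ValuationSubring K, (∀ c : ℂ, algebraMap ℂ K c ∈ O) → x ∈ O) :
    x ∈ (algebraMap ℂ K).range := by
  by_contra hx
  have hxR : x ∉ (integralClosure ℂ K).toSubring := by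
    intro hx'
    apply hx
    have hint : IsIntegral ℂ x := hx'
    have h1 := IsAlgClosed.degree_eq_one_of_irreducible ℂ (minpoly.irreducible hint)
    exact minpoly.mem_range_of_degree_eq_one ℂ x h1
  have inst : IsIntegrallyClosedIn (integralClosure ℂ K).toSubring K :=
    inferInstanceAs (IsIntegrallyClosedIn (integralClosure ℂ K) K)
  obtain ⟨O, hO1, hO2⟩ := Subring.exists_le_valuationSubring_of_isIntegrallyClosedIn hxR
  exact hO2 (h O fun c => hO1 (isIntegral_algebraMap (x := c)))

lemma exists_max (hq : 1 ≤ q) (O : ValuationSubring K) (V : Fin q → K) (hV : V ≠ 0) :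
    ∃ j0, V j0 ≠ 0 ∧ ∀ j, V j / V j0 ∈ O := by
  have : Nonempty (Fin q) := ⟨⟨0, by omega⟩⟩
  obtain ⟨j0, hj0⟩ := Finite.exists_max (fun j => O.valuation (V j))
  have h0 : V j0 ≠ 0 := by
    intro h0
    apply hV
    funext j
    have h1 := hj0 j
    simp only [h0, map_zero] at h1
    have h2 : O.valuation (V j) = 0 := le_antisymm h1 zero_le
    simpa using h2
  refine ⟨j0, h0, fun j => ?_⟩
  rw [← O.valuation_le_one_iff, map_div₀]
  exact div_le_one_of_le₀ (hj0 j) zero_le

end

/-- **Main theorem**, discriminant form. -/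
theorem exists_antisymmetric {q : ℕ} (hq : 4 ≤ q) :
    ∃ V : Fin q → ℂ, V ≠ 0 ∧ (∀ j, V j = - V (Fin.rev j)) ∧
      dpoly 1 V = dpoly 1 (0 : Fin q → ℂ) := by
  by_contra hcon
  push Not at hcon
  have H : OnlyZero q ℂ := by
    intro V h1 h2
    by_contra h0
    exact hcon V h0 h1 h2
  obtain ⟨K, _, _, V, hV, ⟨y, hy⟩, i, hi⟩ := exists_curve_point hq
  have hchar : CharZero K := charZero_of_injective_algebraMap (algebraMap ℂ K).injective
  have hV0 : V ≠ 0 := by
    rintro rfl
    exact hi ⟨0, by simp⟩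
  have hy0 : y ≠ 0 := by
    rintro rfl
    apply hV0
    apply onlyZero_ext H (algebraMap ℂ K) V hV
    rw [← sub_eq_zero, hy]; simp
  have hall : ∀ j, V j ^ 2 / y ∈ (algebraMap ℂ K).range := by
    intro j
    apply mem_range_of_all
    intro O hO
    obtain ⟨j0, hj0, hmax⟩ := exists_max (by omega) O V hV0
    have h1 : V j0 ^ 2 / y ∈ O := by
      by_contra hnot
      have h2 : (V j0 ^ 2 / y)⁻¹ ∈ O := (O.mem_or_inv_mem _).resolve_left hnot
      have h3 : (V j0 ^ 2 / y)⁻¹ = y / V j0 ^ 2 := by rw [inv_div]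
      rw [h3] at h2
      let ι : ℂ →+* O := (algebraMap ℂ K).codRestrict O hO
      refine main_val hq (algebraMap ℂ K) O hO
        (onlyZero_ext H ((IsLocalRing.residue O).comp ι)) V hV y hy j0 hj0 hmax
        ⟨y / V j0 ^ 2, h2⟩ rfl (mem_max O _ ?_)
      show (y / V j0 ^ 2)⁻¹ ∉ O
      rw [inv_div]; exact hnot
    have h4 : V j ^ 2 / y = (V j / V j0) * (V j / V j0) * (V j0 ^ 2 / y) := by
      field_simp
    rw [h4]
    exact O.mul_mem _ _ (O.mul_mem _ _ (hmax j) (hmax j)) h1
  -- a valuation at which `V i` has a pole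
  obtain ⟨O, hO, hiO⟩ : ∃ O : ValuationSubring K, (∀ c : ℂ, algebraMap ℂ K c ∈ O) ∧ V i ∉ O := by
    by_contra hno
    push Not at hno
    exact hi (mem_range_of_all _ hno)
  obtain ⟨j0, hj0, hmax⟩ := exists_max (by omega) O V hV0
  have hpO : V j0 ∉ O := by
    intro h1
    apply hiO
    have : V i = (V i / V j0) * V j0 := by field_simp
    rw [this]; exact O.mul_mem _ _ (hmax i) h1
  have hpinv : (V j0)⁻¹ ∈ O := (O.mem_or_inv_mem _).resolve_left hpO
  obtain ⟨c, hc⟩ := hall j0
  have hc0 : algebraMap ℂ K c ≠ 0 := by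
    rw [hc]; exact div_ne_zero (pow_ne_zero _ hj0) hy0
  have hy2 : y = (algebraMap ℂ K c⁻¹) * V j0 ^ 2 := by
    rw [map_inv₀, hc]; field_simp
  refine no_infinity (by omega) O V y (q % 2) hy j0 hmax hpO
    ((⟨algebraMap ℂ K c⁻¹, hO _⟩ : O) * (⟨(V j0)⁻¹, hpinv⟩ : O) ^ (q - q % 2 - 2)) ?_ ?_
  · show (algebraMap ℂ K c⁻¹) * ((V j0)⁻¹) ^ (q - q % 2 - 2) = y * V j0 ^ (q % 2) / V j0 ^ q
    have e1 : V j0 ^ q = V j0 ^ 2 * V j0 ^ (q % 2) * V j0 ^ (q - q % 2 - 2) := by
      rw [← pow_add, ← pow_add]; congr 1; omega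
    rw [hy2, e1, inv_pow]
    field_simp
  · apply Ideal.mul_mem_left
    apply Ideal.pow_mem_of_mem _ _ _ (by omega)
    apply mem_max
    simpa using hpO

end Pool.Agent.Work.MP_17669a_mp
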